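import Pool.Agent.J4H22.IX.Stm

set_option autoImplicit false

/-! # Project IX, (SPL): a cell of `w'` bits as `r` cells of `w` bits -/

namespace Pool.Agent.J4H72.IX

open Finset
open Pool.Agent.J4H22.IX

/-- the cells `c 0`, ..., `c (r - 1)` are read, and then `k` is continued -/
def rd {ι V O : Type} : (r : ℕ) → (Fin r → ι) → ((Fin r → V) → Tree ι V O) → Tree ι V O
  | 0, _, k => k Fin.elim0
  | r + 1, c, k => Tree.probe (c 0) fun v => rd r (fun j => c j.succ) fun g => k (Fin.cons v g)

theorem rd_eval {ι V O : Type} (m : ι → V) : ∀ (r : ℕ) (c : Fin r → ι)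
    (k : (Fin r → V) → Tree ι V O), (rd r c k).eval m = (k fun j => m (c j)).eval m
  | 0, c, k => by
    have h : (Fin.elim0 : Fin 0 → V) = fun j => m (c j) := funext fun j => j.elim0
    rw [rd, h]
  | r + 1, c, k => by
    have h : (Fin.cons (m (c 0)) (fun j : Fin r => m (c j.succ)) : Fin (r + 1) → V) =
        fun j => m (c j) := by
      funext j
      refine Fin.cases ?_ (fun j => ?_) j
      · rfl
      · rfl
    rw [rd, Tree.eval, rd_eval m r, h]

theorem rd_probes {ι V O : Type} (t : ℕ) : ∀ (r : ℕ) (c : Fin r → ι)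
    (k : (Fin r → V) → Tree ι V O), (∀ g, (k g).Probes t) → (rd r c k).Probes (t + r)
  | 0, c, k, h => h _
  | r + 1, c, k, h => by
    rw [rd, ← add_assoc, Tree.Probes]
    exact fun v => rd_probes t r _ _ fun g => h _

/-- every cell is replaced by `r` cells -/
def ex {ι V V' O : Type} (r : ℕ) (dec : (Fin r → V') → V) : Tree ι V O → Tree (ι × Fin r) V' O
  | .ret o => .ret o
  | .probe i f => rd r (fun j => (i, j)) fun g => ex r dec (f (dec g))

theorem ex_eval {ι V V' O : Type} (r : ℕ) (dec : (Fin r → V') → V) (m : ι × Fin r → V')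
    (T : Tree ι V O) : (ex r dec T).eval m = T.eval fun i => dec fun j => m (i, j) := by
  induction T with
  | ret o => rfl
  | probe i f ih => rw [ex, rd_eval, Tree.eval, ih]

theorem ex_probes {ι V V' O : Type} (r : ℕ) (dec : (Fin r → V') → V) (T : Tree ι V O) :
    ∀ t : ℕ, T.Probes t → (ex r dec T).Probes (r * t) := by
  induction T with
  | ret o => intro t _; simp [ex, Tree.Probes]
  | probe i f ih =>
    intro t h
    cases t with
    | zero => exact absurd h (by simp [Tree.Probes])
    | succ t =>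
      rw [ex, Nat.mul_succ]
      exact rd_probes (r * t) r _ _ fun g => ih _ t (h _)

theorem t_SPL : S_SPL := by
  intro hI O Ok n N s w w' r t hw hS
  obtain ⟨Q, hQ, hm⟩ := hS
  have : Inhabited (Fin (2 ^ w)) := ⟨⟨0, by positivity⟩⟩
  have : Nonempty (Fin (2 ^ w')) := ⟨⟨0, by positivity⟩⟩
  have hcard : Fintype.card (Fin (2 ^ w')) ≤ Fintype.card (Fin r → Fin (2 ^ w)) := by
    rw [Fintype.card_fin, Fintype.card_fun, Fintype.card_fin, Fintype.card_fin, ← pow_mul]
    exact Nat.pow_le_pow_right (by norm_num) (by rwa [mul_comm w r])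
  obtain ⟨enc⟩ := Function.Embedding.nonempty_of_card_le hcard
  have hdec : ∀ x, Function.invFun enc (enc x) = x := Function.leftInverse_invFun enc.injective
  obtain ⟨Q', hQ', hm'⟩ := hI (Fin s × Fin r) (Fin (2 ^ w)) O (r * s) (r * t)
    (by rw [Fintype.card_prod, Fintype.card_fin, Fintype.card_fin, mul_comm])
    (fun z => ex r (Function.invFun enc) (Q z)) fun z => ex_probes r _ _ t (hQ z)
  refine ⟨Q', hQ', fun A B hA hB hA' hB' => ?_⟩
  obtain ⟨m, hmz⟩ := hm A B hA hB hA' hB'
  obtain ⟨m', hm2⟩ := hm' fun q => enc (m q.1) q.2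
  refine ⟨m', fun z => ?_⟩
  rw [hm2 z, ex_eval]
  have e : (fun i => Function.invFun enc fun j => enc (m i) j) = m := funext fun i => hdec (m i)
  rw [e]
  exact hmz z

end Pool.Agent.J4H72.IX
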