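import Pool.Agent.J4H22.IX.Stm3
import Pool.Agent.J4H72.IX.Spl

set_option autoImplicit false

/-! # Project IX, (SPC): other word lengths, for a class of sets -/

namespace Pool.Agent.J4H72.IX

open Finset
open Pool.Agent.J4H22.IX

theorem t_SPC : S_SPC := by
  intro hI O Ok Cl s w w' r t hw hS
  obtain ⟨Q, hQ, hm⟩ := hS
  have i1 : Inhabited (Fin (2 ^ w)) := ⟨⟨0, by positivity⟩⟩
  have i2 : Nonempty (Fin (2 ^ w')) := ⟨⟨0, by positivity⟩⟩
  have hcard : Fintype.card (Fin (2 ^ w')) ≤ Fintype.card (Fin r → Fin (2 ^ w)) := by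
    rw [Fintype.card_fin, Fintype.card_fun, Fintype.card_fin, Fintype.card_fin, ← pow_mul]
    exact Nat.pow_le_pow_right (by norm_num) (by rwa [mul_comm w r])
  obtain ⟨enc⟩ := Function.Embedding.nonempty_of_card_le hcard
  have hdec : ∀ x, Function.invFun enc (enc x) = x := Function.leftInverse_invFun enc.injective
  obtain ⟨Q', hQ', hm'⟩ := hI (Fin s × Fin r) (Fin (2 ^ w)) O (r * s) (r * t)
    (by rw [Fintype.card_prod, Fintype.card_fin, Fintype.card_fin, mul_comm])
    (fun z => ex r (Function.invFun enc) (Q z)) fun z => ex_probes r _ _ t (hQ z)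
  refine ⟨Q', hQ', fun A B hA hB => ?_⟩
  obtain ⟨m, hmz⟩ := hm A B hA hB
  obtain ⟨m', hm2⟩ := hm' fun q => enc (m q.1) q.2
  refine ⟨m', fun z => ?_⟩
  rw [hm2 z, ex_eval]
  have e : (fun i => Function.invFun enc fun j => enc (m i) j) = m := funext fun i => hdec (m i)
  rw [e]
  exact hmz z

end Pool.Agent.J4H72.IX
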