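import Pool.Agent.J4H22.IX.Stm

set_option autoImplicit false

/-! # Project IX, (A2): from the queries with at most one representation to all queries -/

namespace Pool.Agent.J4H72.IX

open Finset
open Pool.Agent.J4H22.IX

theorem rep_zero_of_large {A B : Finset ℕ} {w z : ℕ} (hA : ∀ x ∈ A, x < 2 ^ w)
    (hB : ∀ y ∈ B, y < 2 ^ w) (hz : 2 ^ (w + 1) ≤ z) : rep A B z = 0 := by
  rw [rep, Finset.card_eq_zero, Finset.filter_eq_empty_iff]
  rintro ⟨x, y⟩ hq h
  rw [Finset.mem_product] at hq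
  have h1 := hA x hq.1
  have h2 := hB y hq.2
  rw [pow_succ] at hz
  simp only at h
  omega

theorem rep_mono {A A' B : Finset ℕ} (h : A' ⊆ A) (z : ℕ) : rep A' B z ≤ rep A B z :=
  Finset.card_le_card (Finset.filter_subset_filter _ (Finset.product_subset_product_left h))

theorem t_A2 : S_A2 := by
  classical
  intro hISO hHIT hSAM hTRE hIDX n s w t hn hS
  obtain ⟨Q, hQ, hm⟩ := hS
  have i1 : Inhabited (Fin (2 ^ w)) := ⟨⟨0, by positivity⟩⟩
  have hT := fun z => hTRE (Fin s) (Fin (2 ^ w)) Bool Bool (Fin 0) (Fin (w + 1) × Fin (4 * (w + 1)))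
    Q t hQ (fun _ _ => z) (fun _ g => decide (z < 2 ^ (w + 1) ∧ ∃ c, g c = true))
  choose T hTp hTe using hT
  have hcard : Fintype.card (Fin (w + 1) × Fin (4 * (w + 1))) = 4 * (w + 1) ^ 2 := by
    rw [Fintype.card_prod, Fintype.card_fin, Fintype.card_fin]
    ring
  rw [hcard, Fintype.card_fin, zero_add] at hTp
  obtain ⟨Q', hQ', hm'⟩ := hIDX (Fin 0 ⊕ (Fin (w + 1) × Fin (4 * (w + 1))) × Fin s) (Fin (2 ^ w))
    Bool (4 * (w + 1) ^ 2 * s) (4 * (w + 1) ^ 2 * t) (by
      rw [Fintype.card_sum, Fintype.card_prod, hcard, Fintype.card_fin, Fintype.card_fin, zero_add])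
    T hTp
  refine ⟨Q', hQ', fun A B hA hB hA' hB' => ?_⟩
  obtain ⟨S, hSA, hSz⟩ := hISO hHIT hSAM w A B (hA.trans hn)
  have hmem := fun c : Fin (w + 1) × Fin (4 * (w + 1)) => hm (S c.1 c.2) B
    ((Finset.card_le_card (hSA c.1 c.2)).trans hA) hB (fun x hx => hA' x (hSA c.1 c.2 hx)) hB'
  choose mm hmm using hmem
  obtain ⟨m', hm2⟩ := hm' (Sum.elim Fin.elim0 fun q => mm q.1 q.2)
  refine ⟨m', fun z => ?_⟩
  rw [hm2 z, hTe z]
  simp only [OkFull, Sum.elim_inr, decide_eq_true_eq]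
  constructor
  · rintro ⟨-, c, hc⟩
    by_contra h0
    have h1 : rep (S c.1 c.2) B z = 0 := by
      have := rep_mono (B := B) (hSA c.1 c.2) z
      omega
    have h2 := (hmm c z (by omega)).1 hc
    omega
  · intro h1
    have hz : z < 2 ^ (w + 1) := by
      by_contra h0
      have := rep_zero_of_large hA' hB' (not_lt.1 h0)
      omega
    obtain ⟨i, j, hij⟩ := hSz z hz h1
    exact ⟨hz, (i, j), (hmm (i, j) z hij.le).2 hij.ge⟩

end Pool.Agent.J4H72.IX
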